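import Mathlib
import Pool.Agent.Y840.SW.Win

/-! Exact prime patterns in translates of sieve windows, along narrow progressions.

Let `survivors j k` be the set of the integers in `(j, j + k]` without a prime factor `≤ k`, so that
`h_j(k)` is its cardinality.  For every `T` there is `K` such that, for `T` pairwise disjoint sets of `K`
survivors each, some set `P` of survivors meets at least a quarter of the sets and is the exact pattern
of primes near `x + i d`, for all `i < l`, for arbitrarily large `x` and steps `d` at most a fixed power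
of `log x`, all terms being congruent to `j` modulo all primes `≤ k`. -/

open Finset

namespace Pool.Agent.Results.MP_cbf366_nt.ExactWindows

/-- The integers in `(j, j + k]` without a prime factor `≤ k`. -/
def survivors (j k : ℕ) : Finset ℕ := (Ioc j (j + k)).filter fun n => Nat.Coprime n (primorial k)

/-- The number of primes in `(x, x + k]`. -/
def primesIn (x k : ℕ) : ℕ := Nat.primeCounting (x + k) - Nat.primeCounting x

/-- Near `x` the primes are exactly the integers `x + (e - j)` with `e ∈ P`: for every integer `t` with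
`|t| ≤ R`, `x + t` is a prime if and only if `j + t ∈ P`. -/
def ExactAt (j : ℕ) (P : Finset ℕ) (R x : ℕ) : Prop :=
  ∀ t : ℤ, |t| ≤ R → (Nat.Prime ((x : ℤ) + t).toNat ↔ ∃ e ∈ P, (e : ℤ) = j + t)

theorem primesIn_eq (x k : ℕ) : primesIn x k = ((Ioc x (x + k)).filter Nat.Prime).card := by
  have e : ∀ n : ℕ, Nat.primeCounting n = ((range (n + 1)).filter Nat.Prime).card := fun n => by
    unfold Nat.primeCounting Nat.primeCounting'
    rw [Nat.count_eq_card_filter_range]
  unfold primesIn
  rw [e, e]
  have h : (range (x + k + 1)).filter Nat.Prime =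
      (range (x + 1)).filter Nat.Prime ∪ (Ioc x (x + k)).filter Nat.Prime := by
    ext n
    simp only [mem_filter, mem_range, mem_union, mem_Ioc]
    constructor
    · rintro ⟨h1, h2⟩
      by_cases h3 : n < x + 1
      · exact Or.inl ⟨h3, h2⟩
      · exact Or.inr ⟨⟨by omega, by omega⟩, h2⟩
    · rintro (⟨h1, h2⟩ | ⟨⟨h1, h1'⟩, h2⟩)
      · exact ⟨by omega, h2⟩
      · exact ⟨by omega, h2⟩
  have hd : Disjoint ((range (x + 1)).filter Nat.Prime) ((Ioc x (x + k)).filter Nat.Prime) := by
    rw [Finset.disjoint_left]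
    intro n h1 h2
    simp only [mem_filter, mem_range, mem_Ioc] at h1 h2
    omega
  rw [h, card_union_of_disjoint hd]
  omega

theorem dvd_primorial {p k : ℕ} (hp : p.Prime) (hpk : p ≤ k) : p ∣ primorial k := by
  unfold primorial
  exact dvd_prod_of_mem _ (by simp [hp]; omega)

theorem le_of_dvd_primorial {p k : ℕ} (hp : p.Prime) (hd : p ∣ primorial k) : p ≤ k := by
  unfold primorial at hd
  obtain ⟨r, hr, hpr⟩ := (hp.prime.dvd_finsetProd_iff _).1 hd
  simp only [mem_filter, mem_range] at hr
  have := (Nat.prime_dvd_prime_iff_eq hp hr.2).1 hpr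
  omega

theorem squarefree_primorial (k : ℕ) : Squarefree (primorial k) := by
  unfold primorial
  refine Finset.squarefree_prod_of_pairwise_isCoprime ?_ ?_
  · intro a ha b hb hab
    simp only [coe_filter, mem_range, Set.mem_ofPred_eq] at ha hb
    exact (Nat.coprime_iff_isRelPrime.1 ((Nat.coprime_primes ha.2 hb.2).2 hab))
  · intro p hp
    simp only [mem_filter, mem_range] at hp
    exact hp.2.prime.squarefree

/-- an exact pattern within distance `R ≥ k` determines the number of primes in `(x, x + k]` -/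
theorem count_of_exact {j k R x : ℕ} {P : Finset ℕ} (hP : P ⊆ survivors j k) (hR : k ≤ R)
    (h : ExactAt j P R x) : primesIn x k = P.card := by
  rw [primesIn_eq]
  symm
  refine Finset.card_bij (fun e _ => x + (e - j)) ?_ ?_ ?_
  · intro e he
    have h1 := hP he
    simp only [survivors, mem_filter, mem_Ioc] at h1
    rw [mem_filter, mem_Ioc]
    refine ⟨⟨by omega, by omega⟩, ?_⟩
    have h2 := (h ((e : ℤ) - j) (by rw [abs_le]; constructor <;> omega)).2 ⟨e, he, by ring⟩
    have e1 : ((x : ℤ) + ((e : ℤ) - j)).toNat = x + (e - j) := by omega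
    rwa [e1] at h2
  · intro e he e' he' hee
    have h1 := hP he
    have h2 := hP he'
    simp only [survivors, mem_filter, mem_Ioc] at h1 h2
    omega
  · intro y hy
    rw [mem_filter, mem_Ioc] at hy
    have h2 := (h ((y : ℤ) - x) (by rw [abs_le]; constructor <;> omega)).1 (by
      have e1 : ((x : ℤ) + ((y : ℤ) - x)).toNat = y := by omega
      rw [e1]
      exact hy.2)
    obtain ⟨e, he, hee⟩ := h2
    have h1 := hP he
    simp only [survivors, mem_filter, mem_Ioc] at h1
    exact ⟨e, he, by omega⟩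

theorem result (T : ℕ) (hT : 1 ≤ T) : ∃ K : ℕ, 1 ≤ K ∧ ∀ (k j : ℕ) (S : Fin T → Finset ℕ),
    (∀ s, S s ⊆ survivors j k) → (∀ s s', s ≠ s' → Disjoint (S s) (S s')) → (∀ s, K ≤ (S s).card) →
    ∃ P : Finset ℕ, P ⊆ univ.biUnion S ∧ T ≤ 4 * (univ.filter fun s => (P ∩ S s).Nonempty).card ∧
      ∀ R l : ℕ, ∃ C : ℕ, ∀ x₀ : ℕ, ∃ x d : ℕ, x₀ ≤ x ∧ 1 ≤ d ∧ (d : ℝ) ≤ Real.log x ^ C ∧
        ∀ i < l, x + i * d ≡ j [MOD primorial k] ∧ primesIn (x + i * d) k = P.card ∧
          ExactAt j P R (x + i * d) := by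
  classical
  obtain ⟨K, hK, hmain⟩ := Pool.Agent.Y840.SW.cls' T hT
  refine ⟨K, hK, fun k j S hS hdis hcard => ?_⟩
  choose U hUS hUc using fun s => Finset.exists_subset_card_eq (hcard s)
  set e : Fin T → Fin K → ℕ := fun s i => (U s).orderEmbOfFin (hUc s) i with he
  have heU : ∀ s i, e s i ∈ U s := fun s i => (U s).orderEmbOfFin_mem (hUc s) i
  have heS : ∀ s i, e s i ∈ S s := fun s i => hUS s (heU s i)
  have hem : ∀ s i, e s i ∈ survivors j k := fun s i => hS s (heS s i)
  simp only [survivors, mem_filter, mem_Ioc] at hem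
  have heinj : ∀ s i s' i', e s i = e s' i' → s = s' ∧ i = i' := by
    intro s i s' i' h
    have hss : s = s' := by
      by_contra hne
      exact (Finset.disjoint_left.1 (hdis s s' hne)) (heS s i) (h ▸ heS s' i')
    subst hss
    exact ⟨rfl, ((U s).orderEmbOfFin (hUc s)).injective h⟩
  obtain ⟨P₀, hP₀, hpat⟩ := hmain (primorial k) j (squarefree_primorial k) (fun s i => e s i - j)
    (fun s i s' i' h => heinj s i s' i' (by
      have h1 := (hem s i).1
      have h2 := (hem s' i').1
      omega))
    (fun s i p hp hpk hd => by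
      have h1 := (hem s i).1
      have e1 : j + (e s i - j) = e s i := by omega
      rw [e1] at hd
      have h3 := Nat.dvd_gcd hd hpk
      rw [(hem s i).2] at h3
      exact hp.one_lt.ne' (Nat.dvd_one.1 h3))
    (fun p hp hpk => ⟨0, fun s i hd => by
      have h1 := (hem s i).1
      rw [zero_add] at hd
      have h2 := Nat.le_of_dvd (by omega) (Int.natCast_dvd_natCast.1 hd)
      have h3 : ¬ p ≤ k := fun h => hpk (dvd_primorial hp h)
      omega⟩)
  set P : Finset ℕ := P₀.image (fun x => e x.1 x.2) with hP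
  have hPS : P ⊆ univ.biUnion S := by
    intro y hy
    rw [hP, mem_image] at hy
    obtain ⟨x, _, rfl⟩ := hy
    exact mem_biUnion.2 ⟨x.1, mem_univ _, heS x.1 x.2⟩
  have hPsurv : P ⊆ survivors j k := by
    intro y hy
    obtain ⟨s, _, hs⟩ := mem_biUnion.1 (hPS hy)
    exact hS s hs
  refine ⟨P, hPS, hP₀.trans ?_, fun R l => ?_⟩
  · apply Nat.mul_le_mul_left
    apply Finset.card_le_card
    intro s hs
    rw [mem_image] at hs
    obtain ⟨x, hx, rfl⟩ := hs
    rw [mem_filter]
    refine ⟨mem_univ _, e x.1 x.2, ?_⟩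
    rw [mem_inter]
    exact ⟨mem_image.2 ⟨x, hx, rfl⟩, heS x.1 x.2⟩
  · obtain ⟨C, hC⟩ := hpat (max R k) l
    refine ⟨C, fun x₀ => ?_⟩
    obtain ⟨x, d, h1, h2, h3, h4⟩ := hC x₀
    refine ⟨x, d, h1, h2, h3, fun i hi => ?_⟩
    obtain ⟨h5, h6⟩ := h4 i hi
    have h7 : ExactAt j P (max R k) (x + i * d) := by
      intro t ht
      rw [h5 t ht]
      simp only [Set.mem_ofPred_eq]
      constructor
      · rintro ⟨y, hy, hyt⟩
        refine ⟨e y.1 y.2, mem_image.2 ⟨y, hy, rfl⟩, ?_⟩
        have := (hem y.1 y.2).1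
        omega
      · rintro ⟨z, hz, hzt⟩
        obtain ⟨y, hy, hyz⟩ := mem_image.1 hz
        refine ⟨y, hy, ?_⟩
        have := (hem y.1 y.2).1
        omega
    refine ⟨h6, count_of_exact hPsurv (le_max_right _ _) h7, fun t ht => h7 t (ht.trans ?_)⟩
    exact_mod_cast le_max_left _ _

end Pool.Agent.Results.MP_cbf366_nt.ExactWindows
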