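import Pool.Agent.Y816.PD.UniE

set_option autoImplicit false

/-!
# Exact constellations of almost primes with restricted digits in every interval `(x, x + x ^ (1 / D))`

For every admissible `H ⊆ [1, k]` (for instance the survivors of the sieve in a window of length `k`, shifted) the
`m` are considered for which the `m + h`, `h ∈ H`, are almost primes, all the other integers of the window
`(m, m + k]` are not primes, and the `i`-th digit of `m` in base `b` belongs to an arbitrary set `A i` for `i < K`.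
-/

namespace Pool.Agent.Results.MP_cbf366_nt.RestrictedDigits

open Finset Filter
open Pool.Agent.Y816.PD (NA DC EX)

/-- The integers of `(m, m + k]` without a prime factor `≤ k`, shifted by `m`. -/
def Surv (m k : ℕ) : Finset ℕ := (Icc 1 k).filter (fun h => ∀ p ≤ k, p.Prime → ¬ p ∣ m + h)

lemma surv_adm (m k : ℕ) (p : ℕ) (hp : p.Prime) : ∃ n : ℕ, ∀ h ∈ Surv m k, ¬ p ∣ n + h := by
  by_cases hpk : p ≤ k
  · refine ⟨m, fun h hh => ?_⟩
    exact (mem_filter.1 hh).2 p hpk hp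
  · refine ⟨0, fun h hh hd => ?_⟩
    rw [zero_add] at hd
    have h1 := mem_Icc.1 (mem_filter.1 hh).1
    have h2 := Nat.le_of_dvd (by omega) hd
    omega

/-- **Exact constellations of almost primes with restricted digits in short intervals**, for all admissible sets,
and hence for the survivors of the sieve in every window. -/
theorem result (D : ℕ) (hD : 1 ≤ D) (k : ℕ) (hk : 1 ≤ k) (H : Finset ℕ) (hHk : H ⊆ Icc 1 k) (hH0 : H.Nonempty)
    (hH : (∀ p : ℕ, p.Prime → ∃ m : ℕ, ∀ h ∈ H, ¬ p ∣ m + h) ∨ ∃ m : ℕ, H = Surv m k) :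
    ∃ c : ℝ, 0 < c ∧ ∃ r₀ : ℕ, 2 ≤ r₀ ∧ ∀ r : ℕ, r₀ ≤ r → ∀ b : ℕ, 2 ≤ b → ∃ κ : ℝ, 0 < κ ∧
      ∀ᶠ x : ℕ in atTop, ∀ K : ℕ, K = Nat.log b (⌊(x : ℝ) ^ (1 / (D : ℝ))⌋₊ / 3) →
        ∀ A : ℕ → Finset ℕ, (∀ i < K, A i ⊆ range b) → (b : ℝ) ^ K ≤ Real.exp (c * K) * NA K A →
        (∃ d ∈ A 0, ∀ h ∈ H, (d + h).Coprime b) → (∃ d ∈ A (K - 1), d ≠ 0) →
          κ * NA K A / (K : ℝ) ^ H.card ≤
            DC b K A {m | (x < m ∧ (m : ℝ) < x + (x : ℝ) ^ (1 / (D : ℝ))) ∧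
              (∀ h ∈ H, (∀ p : ℕ, p.Prime → p ∣ m + h → b ^ K < p ^ r) ∧ (m + h).primeFactorsList.length ≤ r) ∧
              ∀ n : ℕ, m < n → n ≤ m + k → n.Prime → ∃ h ∈ H, n = m + h} := by
  have hadm : ∀ p : ℕ, p.Prime → ∃ m : ℕ, ∀ h ∈ H, ¬ p ∣ m + h := by
    rcases hH with hH | ⟨m, rfl⟩
    · exact hH
    · exact fun p hp => surv_adm m k p hp
  have hD0 : (0 : ℝ) < D := by exact_mod_cast hD
  have hinv : (0 : ℝ) < 1 / (D : ℝ) := by positivity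
  have ht : Tendsto (fun x : ℕ => (x : ℝ) ^ (1 / (D : ℝ))) atTop atTop :=
    (tendsto_rpow_atTop hinv).comp tendsto_natCast_atTop_atTop
  have hy : Tendsto (fun x : ℕ => ⌊(x : ℝ) ^ (1 / (D : ℝ))⌋₊) atTop atTop :=
    tendsto_nat_floor_atTop.comp ht
  obtain ⟨c, hc, r₀, hr₀, h⟩ := Pool.Agent.Y816.PD.uni_exact H hadm H.card rfl (card_pos.2 hH0) k (4 * (2 * D))
  refine ⟨c, hc, r₀, hr₀, fun r hr b hb => ?_⟩
  obtain ⟨κ, hκ, h1⟩ := h r hr b hb
  refine ⟨κ, hκ, ?_⟩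
  obtain ⟨K0, hK0⟩ := eventually_atTop.1 h1
  filter_upwards [hy.eventually_ge_atTop (3 * b ^ (K0 + 1)), hy.eventually_ge_atTop 2] with x hyx hyx2 K hK A hA
    hprod hd htop
  have hb0 : 0 < b := by omega
  obtain ⟨s, hs⟩ : ∃ s, s = ⌊(x : ℝ) ^ (1 / (D : ℝ))⌋₊ := ⟨_, rfl⟩
  have hs1 : (x : ℝ) ^ (1 / (D : ℝ)) < (s : ℝ) + 1 := by rw [hs]; exact Nat.lt_floor_add_one _
  have hs2 : (s : ℝ) ≤ (x : ℝ) ^ (1 / (D : ℝ)) := by rw [hs]; exact Nat.floor_le (by positivity)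
  rw [← hs] at hyx hyx2 hK
  obtain ⟨hKK, hb1, hb2⟩ := Pool.Agent.Y816.PD.log_three hb (K0 + 1) hyx hK
  have hxs : x ≤ s ^ (2 * D) := by
    have h2 : (x : ℝ) = ((x : ℝ) ^ (1 / (D : ℝ))) ^ D := by
      rw [← Real.rpow_natCast, ← Real.rpow_mul (Nat.cast_nonneg x), one_div, inv_mul_cancel₀ hD0.ne',
        Real.rpow_one]
    have h4 : 0 ≤ (x : ℝ) ^ (1 / (D : ℝ)) := by positivity
    have h3 : (x : ℝ) ≤ ((s : ℝ) + 1) ^ D := h2.trans_le (pow_le_pow_left₀ h4 hs1.le D)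
    have h5 : x ≤ (s + 1) ^ D := by exact_mod_cast h3
    calc x ≤ (s + 1) ^ D := h5
      _ ≤ (s ^ 2) ^ D := Nat.pow_le_pow_left (by nlinarith) D
      _ = s ^ (2 * D) := (pow_mul s 2 D).symm
  have e1 : s ≤ b ^ (4 * K) := by
    calc s ≤ 3 * b * b ^ K := hb2
      _ ≤ b ^ 2 * b * b ^ K := by
          apply Nat.mul_le_mul_right
          apply Nat.mul_le_mul_right
          nlinarith
      _ = b ^ (K + 3) := by ring
      _ ≤ b ^ (4 * K) := Nat.pow_le_pow_right hb0 (by omega)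
  have e2 : x ≤ b ^ (4 * (2 * D) * K) := by
    calc x ≤ s ^ (2 * D) := hxs
      _ ≤ (b ^ (4 * K)) ^ (2 * D) := Nat.pow_le_pow_left e1 _
      _ = b ^ (4 * (2 * D) * K) := by rw [← pow_mul]; congr 1; ring
  have h2 := hK0 K (by omega) (Set.Ioo x (x + s)) x s hb1 e2 (Set.finite_Ioo x (x + s)) (fun m h1 h2 => ⟨h1, h2⟩)
    A hA hprod hd htop
  refine h2.trans (Nat.cast_le.2 ?_)
  unfold DC
  apply Set.ncard_le_ncard
  · rintro m ⟨⟨hm1, hm2, hm3⟩, hm4⟩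
    refine ⟨⟨⟨hm1.1, ?_⟩, hm2, fun n hn1 hn2 hn3 => ?_⟩, hm4⟩
    · have : (m : ℝ) < x + s := by exact_mod_cast hm1.2
      linarith
    · refine ⟨n - m, ?_, by omega⟩
      by_contra hcon
      refine hm3 (n - m) (by omega) hcon ?_
      have : m + (n - m) = n := by omega
      rwa [this]
  · apply (Set.finite_Ioo x (x + s + 1)).subset
    rintro m ⟨⟨hm1, _⟩, _⟩
    refine ⟨hm1.1, ?_⟩
    have h5 : (m : ℝ) < ((x + s + 1 : ℕ) : ℝ) := by
      push_cast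
      linarith [hm1.2]
    exact_mod_cast h5

end Pool.Agent.Results.MP_cbf366_nt.RestrictedDigits
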