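import Mathlib
import Pool.Agent.Y826.ZG.Final

/-! Primes in translates of sieve windows.  Let `h_j(k)` be the number of integers in `(j, j + k]` without a
prime factor `≤ k`.  If `h_j(k) ≥ 45`, then at least `X ^ (1 - ε)` of the `x ≤ X` with `x ≡ j` modulo all primes
`≤ k` are such that `(x, x + k]` contains at least two primes (starting file: `49`).  This rests on `DHL[45,2]`
for linear forms (`Pool.Agent.Y826.ZG.dhl45L`). -/

set_option autoImplicit false

open Finset Filter

namespace Pool.Agent.Results.MP_cbf366_nt.SieveCounts45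

theorem two_le_primeCounting {x k q q' : ℕ} (hq : q.Prime) (hq' : q'.Prime) (hne : q ≠ q') (h1 : x < q) (h2 : q ≤ x + k)
    (h3 : x < q') (h4 : q' ≤ x + k) : Nat.primeCounting x + 2 ≤ Nat.primeCounting (x + k) := by
  unfold Nat.primeCounting Nat.primeCounting'
  rw [Nat.count_eq_card_filter_range, Nat.count_eq_card_filter_range]
  have hd : Disjoint ((range (x + 1)).filter Nat.Prime) {q, q'} := by
    rw [Finset.disjoint_left]
    intro a ha hb
    rw [Finset.mem_filter, Finset.mem_range] at ha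
    rw [Finset.mem_insert, Finset.mem_singleton] at hb
    rcases hb with rfl | rfl <;> omega
  have hc : ({q, q'} : Finset ℕ).card = 2 := Finset.card_pair hne
  rw [← hc, ← Finset.card_union_of_disjoint hd]
  apply Finset.card_le_card
  intro a ha
  rw [Finset.mem_union, Finset.mem_filter, Finset.mem_range, Finset.mem_insert, Finset.mem_singleton] at ha
  rw [Finset.mem_filter, Finset.mem_range]
  rcases ha with ⟨h5, h6⟩ | rfl | rfl
  · exact ⟨by omega, h6⟩
  · exact ⟨by omega, hq⟩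
  · exact ⟨by omega, hq'⟩

theorem scale {P j : ℕ} (hP : 0 < P) {ε : ℝ} (hε : 0 < ε) {f : ℝ → ℝ}
    (hf : ∀ ε' : ℝ, 0 < ε' → ∀ᶠ Y : ℝ in atTop, Y ^ (1 - ε') ≤ f Y) :
    ∀ᶠ X : ℝ in atTop, X ^ (1 - ε) ≤ f ((X - j) / P) := by
  have hP' : (0 : ℝ) < P := by exact_mod_cast hP
  set ε' : ℝ := min (ε / 2) (1 / 2) with hε'
  have h0 : 0 < ε' := lt_min (by linarith) (by norm_num)
  have h1 : ε' ≤ ε / 2 := min_le_left _ _
  have h2 : ε' ≤ 1 / 2 := min_le_right _ _
  have ht : Tendsto (fun X : ℝ => (X - j) / P) atTop atTop :=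
    (tendsto_atTop_add_const_right _ (-(j : ℝ)) tendsto_id).atTop_div_const hP'
  have hg : ∀ᶠ X : ℝ in atTop, (2 * P : ℝ) ≤ X ^ (ε / 2) :=
    (tendsto_rpow_atTop (by linarith)).eventually_ge_atTop _
  filter_upwards [ht.eventually (hf ε' h0), hg, eventually_ge_atTop (1 : ℝ), eventually_ge_atTop (2 * (j : ℝ))]
    with X hX h3 h4 h5
  refine le_trans ?_ hX
  have h6 : X / (2 * P) ≤ (X - j) / P := by
    rw [div_le_div_iff₀ (by positivity) hP']
    nlinarith
  have h7 : 0 < X := by linarith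
  calc X ^ (1 - ε) ≤ X ^ (1 - ε' - ε / 2) := Real.rpow_le_rpow_of_exponent_le h4 (by linarith)
    _ = X ^ (1 - ε') / X ^ (ε / 2) := Real.rpow_sub h7 _ _
    _ ≤ X ^ (1 - ε') / (2 * P) := div_le_div_of_nonneg_left (by positivity) (by positivity) h3
    _ ≤ X ^ (1 - ε') / (2 * P) ^ (1 - ε') := by
        apply div_le_div_of_nonneg_left (by positivity) (by positivity)
        have h8 : (1 : ℝ) ≤ 2 * P := by
          have : (1 : ℝ) ≤ P := by exact_mod_cast hP
          linarith
        calc (2 * P : ℝ) ^ (1 - ε') ≤ (2 * P : ℝ) ^ (1 : ℝ) := Real.rpow_le_rpow_of_exponent_le h8 (by linarith)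
          _ = 2 * P := Real.rpow_one _
    _ = (X / (2 * P)) ^ (1 - ε') := (Real.div_rpow h7.le (by positivity) _).symm
    _ ≤ ((X - j) / P) ^ (1 - ε') := Real.rpow_le_rpow (by positivity) h6 (by linarith)

open Classical in
/-- If at least `45` integers of `(j, j + k]` have no prime factor `≤ k`, then at least `X ^ (1 - ε)` of the
`x ≤ X` with `x ≡ j` modulo every prime `≤ k` have at least two primes in `(x, x + k]`
(`π (x + k) - π x ≥ 2`). -/
theorem result (k j : ℕ)
    (hk : 45 ≤ ((Ioc j (j + k)).filter fun n => ∀ p : ℕ, p.Prime → p ≤ k → ¬ p ∣ n).card) (ε : ℝ) (hε : 0 < ε) :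
    ∀ᶠ X : ℝ in atTop, X ^ (1 - ε) ≤
      (Set.ncard {x : ℕ | (x : ℝ) ≤ X ∧ (∀ p : ℕ, p.Prime → p ≤ k → x ≡ j [MOD p]) ∧
        Nat.primeCounting x + 2 ≤ Nat.primeCounting (x + k)} : ℝ) := by
  obtain ⟨T, hTs, hTc⟩ := Finset.exists_subset_card_eq hk
  set e : Fin 45 → ℕ := fun i => T.orderEmbOfFin hTc i with he
  have hemem : ∀ i, e i ∈ T := fun i => Finset.orderEmbOfFin_mem T hTc i
  have hinj : Function.Injective e := (T.orderEmbOfFin hTc).injective
  have hes : ∀ i, (j < e i ∧ e i ≤ j + k) ∧ ∀ p : ℕ, p.Prime → p ≤ k → ¬ p ∣ e i := by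
    intro i
    have := Finset.mem_filter.1 (hTs (hemem i))
    exact ⟨Finset.mem_Ioc.1 this.1, this.2⟩
  set P : ℕ := primorial k with hPdef
  have hP : 0 < P := primorial_pos k
  have hdvd : ∀ p : ℕ, p.Prime → p ≤ k → p ∣ P := by
    intro p hp hpk
    rw [hPdef]
    unfold primorial
    exact Finset.dvd_prod_of_mem _ (Finset.mem_filter.2 ⟨Finset.mem_range.2 (by omega), hp⟩)
  have hcop : ∀ p : ℕ, p.Prime → k < p → ¬ p ∣ P := by
    intro p hp hpk h
    rw [hPdef] at h
    unfold primorial at h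
    obtain ⟨q, hq, hpq⟩ := (Prime.dvd_finsetProd_iff hp.prime _).1 h
    rw [Finset.mem_filter, Finset.mem_range] at hq
    rw [(Nat.prime_dvd_prime_iff_eq hp hq.2)] at hpq
    omega
  have hadm : H95R2.BG.LF.AdmissibleL (fun _ : Fin 45 => P) e := by
    refine ⟨fun _ => hP, ?_, ?_⟩
    · intro i i' hii h
      exact hii (hinj (Nat.eq_of_mul_eq_mul_left hP h)).symm
    · intro p hp
      by_cases hpk : p ≤ k
      · exact ⟨0, fun i => by simpa using (hes i).2 p hp hpk⟩
      · have hpk' : k < p := by omega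
        have hc : Nat.Coprime P p := ((Nat.Prime.coprime_iff_not_dvd hp).2 (hcop p hp hpk')).symm
        obtain ⟨a, ha⟩ : ∃ a : ℕ, p ∣ P * a + j := by
          have h1 : IsUnit (P : ZMod p) := (ZMod.isUnit_iff_coprime P p).2 hc
          haveI : NeZero p := ⟨hp.ne_zero⟩
          obtain ⟨u, hu⟩ := h1
          refine ⟨((↑(u⁻¹) : ZMod p) * (-(j : ZMod p))).val, ?_⟩
          rw [← ZMod.natCast_eq_zero_iff]
          push_cast
          rw [ZMod.natCast_zmod_val, ← mul_assoc, ← hu, Units.mul_inv, one_mul, neg_add_cancel]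
        refine ⟨a, fun i h => ?_⟩
        obtain ⟨⟨h1, h2⟩, _⟩ := hes i
        have h3 : P * a + e i = (P * a + j) + (e i - j) := by omega
        have h4 : p ∣ e i - j := (Nat.dvd_add_right ha).1 (h3 ▸ h)
        have := Nat.le_of_dvd (by omega) h4
        omega
  have hmain := scale (j := j) hP hε (f := fun Y => ((H95R2.BG.LF.goodL (fun _ : Fin 45 => P) e Y).card : ℝ))
    (fun ε' hε' => Pool.Agent.Y826.ZG.dhl45L _ _ hadm ε' hε')
  filter_upwards [hmain] with X hX
  refine hX.trans ?_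
  have hfin : {x : ℕ | (x : ℝ) ≤ X ∧ (∀ p : ℕ, p.Prime → p ≤ k → x ≡ j [MOD p]) ∧
        Nat.primeCounting x + 2 ≤ Nat.primeCounting (x + k)}.Finite :=
    (Set.finite_Iic ⌊X⌋₊).subset fun x hx => Nat.le_floor hx.1
  have hP' : (0 : ℝ) < P := by exact_mod_cast hP
  rw [Set.ncard_eq_toFinset_card _ hfin]
  norm_cast
  apply Finset.card_le_card_of_injOn (fun n => P * n + j)
  · intro n hn
    unfold H95R2.BG.LF.goodL at hn
    obtain ⟨hn1, i, i', hii, hp1, hp2⟩ := Finset.mem_filter.1 hn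
    obtain ⟨hn2, hn3⟩ := Finset.mem_Icc.1 hn1
    have hn4 : (n : ℝ) ≤ (X - j) / P := by
      have h1 : 0 ≤ (X - j) / P := by
        by_contra hneg
        push Not at hneg
        rw [Nat.floor_of_nonpos hneg.le] at hn3
        omega
      exact (Nat.cast_le.2 hn3).trans (Nat.floor_le h1)
    rw [le_div_iff₀ hP'] at hn4
    simp only [Set.Finite.coe_toFinset, Set.mem_ofPred_eq]
    refine ⟨?_, ?_, ?_⟩
    · push_cast
      nlinarith
    · intro p hp hpk
      have h1 : P * n ≡ 0 [MOD p] := (Nat.modEq_zero_iff_dvd).2 (Dvd.dvd.mul_right (hdvd p hp hpk) n)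
      simpa using h1.add_right j
    · obtain ⟨⟨h1, h2⟩, _⟩ := hes i
      obtain ⟨⟨h3, h4⟩, _⟩ := hes i'
      replace hp1 : (P * n + e i).Prime := hp1
      replace hp2 : (P * n + e i').Prime := hp2
      show Nat.primeCounting (P * n + j) + 2 ≤ Nat.primeCounting (P * n + j + k)
      exact two_le_primeCounting hp1 hp2 (fun h => hii (hinj (by simpa using h))) (by omega) (by omega)
        (by omega) (by omega)
  · intro n _ m _ h
    have h1 : P * n = P * m := Nat.add_right_cancel h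
    exact Nat.eq_of_mul_eq_mul_left hP h1

end Pool.Agent.Results.MP_cbf366_nt.SieveCounts45
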