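import Pool.Agent.Y879.NP.Top

set_option autoImplicit false

/-!
Translates of sieve windows in which ALL survivors are almost prime and at least `c log h` of them are ACTUAL
PRIMES (`h` the number of the survivors): right order of magnitude, and narrow progressions in all dense sets of
such translates.
-/

namespace Pool.Agent.Results.MP_cbf366_nt.SurvivorsWithPrimes

open Finset Filter
open Pool.Agent.Y879.NP

/-- The integers in `(j, j + k]` without a prime factor `≤ k`. -/
def survivors (j k : ℕ) : Finset ℕ := (Ioc j (j + k)).filter fun n => Nat.Coprime n (primorial k)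

/-- `h_j(k)`, the number of the survivors -/
def h (j k : ℕ) : ℕ := (survivors j k).card

/-- The number of primes in `(x, x + k]`. -/
def primesIn (x k : ℕ) : ℕ := Nat.primeCounting (x + k) - Nat.primeCounting x

/-- The `x ∈ (X, 3 X]`, congruent to `j` modulo the product of the primes `≤ k`, such that for all survivors `e`
all prime factors of `x + (e - j)` exceed `X ^ δ`, and such that `(x, x + k]` contains at least
`c log h_j(k)` primes. -/
def Win (j k : ℕ) (c δ X : ℝ) : Set ℕ := {x | X < x ∧ (x : ℝ) ≤ 3 * X ∧ x ≡ j [MOD primorial k] ∧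
  (∀ e ∈ survivors j k, ∀ p : ℕ, p.Prime → p ∣ x + (e - j) → X ^ δ < p) ∧
  c * Real.log (h j k) ≤ primesIn x k}

theorem primesIn_eq (x k : ℕ) : primesIn x k = ((Ioc x (x + k)).filter Nat.Prime).card := by
  have e : ∀ n : ℕ, Nat.primeCounting n = ((range (n + 1)).filter Nat.Prime).card := fun n => by
    unfold Nat.primeCounting Nat.primeCounting'
    rw [Nat.count_eq_card_filter_range]
  unfold primesIn
  rw [e, e]
  have h : (range (x + k + 1)).filter Nat.Prime =
      (range (x + 1)).filter Nat.Prime ∪ (Ioc x (x + k)).filter Nat.Prime := by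
    ext n
    simp only [mem_filter, mem_range, mem_union, mem_Ioc]
    constructor
    · rintro ⟨h1, h2⟩
      by_cases h3 : n < x + 1
      · exact Or.inl ⟨h3, h2⟩
      · exact Or.inr ⟨⟨by omega, by omega⟩, h2⟩
    · rintro (⟨h1, h2⟩ | ⟨⟨h1, h1'⟩, h2⟩)
      · exact ⟨by omega, h2⟩
      · exact ⟨by omega, h2⟩
  have hd : Disjoint ((range (x + 1)).filter Nat.Prime) ((Ioc x (x + k)).filter Nat.Prime) := by
    rw [Finset.disjoint_left]
    intro n h1 h2
    simp only [mem_filter, mem_range, mem_Ioc] at h1 h2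
    omega
  rw [h, card_union_of_disjoint hd]
  omega

/-- **All survivors almost prime, at least `c log h` of them prime.** There are an absolute constant `c > 0` and
`h₀` such that for all `j, k` with `h = h_j(k) ≥ h₀` there are `δ, κ > 0` and `r` such that for all large `X`:
(1) at least `κ X / (log X) ^ h` integers `x` belong to `Win j k c δ X`; (2) for these `x` all `x + (e - j)`,
`e` a survivor, have at most `r` prime factors; (3) for every `l` and `ε > 0` there is `C` such that for all large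
`X` every set `A` of at least `ε X / (log X) ^ h` elements of `Win j k c δ X` contains a progression
`x, x + d, ..., x + (l - 1) d` with `1 ≤ d ≤ (log X) ^ C`. -/
theorem result : ∃ (c : ℝ) (h₀ : ℕ), 0 < c ∧ ∀ j k : ℕ, h₀ ≤ h j k →
    ∃ (δ κ : ℝ) (r : ℕ), 0 < δ ∧ 0 < κ ∧
      (∃ X₀ : ℝ, ∀ X : ℝ, X₀ ≤ X →
        (∃ A : Finset ℕ, (∀ x ∈ A, x ∈ Win j k c δ X) ∧ κ * X / Real.log X ^ h j k ≤ A.card) ∧
        ∀ x ∈ Win j k c δ X, ∀ e ∈ survivors j k, (x + (e - j)).primeFactorsList.length ≤ r) ∧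
      ∀ (l : ℕ) (ε : ℝ), 0 < ε → ∃ (C : ℕ) (X₀ : ℝ), ∀ X : ℝ, X₀ ≤ X → ∀ A : Finset ℕ,
        (∀ x ∈ A, x ∈ Win j k c δ X) → ε * X / Real.log X ^ h j k ≤ A.card →
        ∃ x d : ℕ, 1 ≤ d ∧ (d : ℝ) ≤ Real.log X ^ C ∧ ∀ i < l, x + i * d ∈ A := by
  classical
  obtain ⟨c, n0, hc, hsets⟩ := Pool.Agent.Y879.NP.sets
  refine ⟨c, n0, hc, ?_⟩
  intro j k hjk
  obtain ⟨S, hS⟩ : ∃ S, S = (survivors j k).image (fun e => e - j) := ⟨_, rfl⟩
  have hmem : ∀ e ∈ survivors j k, j < e ∧ e ≤ j + k ∧ Nat.Coprime e (primorial k) := by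
    intro e he
    obtain ⟨h1, h2⟩ := mem_filter.1 he
    rw [mem_Ioc] at h1
    exact ⟨h1.1, h1.2, h2⟩
  have hinj : Set.InjOn (fun e => e - j) (survivors j k : Set ℕ) := by
    intro a ha b hb hab
    have h1 := (hmem a (Finset.mem_coe.1 ha)).1
    have h2 := (hmem b (Finset.mem_coe.1 hb)).1
    have h3 : a - j = b - j := hab
    omega
  have hcard : S.card = h j k := by
    rw [hS]
    exact Finset.card_image_of_injOn hinj
  have hSk : ∀ s ∈ S, 1 ≤ s ∧ s ≤ k := by
    intro s hs
    rw [hS] at hs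
    obtain ⟨e, he, rfl⟩ := mem_image.1 hs
    obtain ⟨h1, h2, -⟩ := hmem e he
    exact ⟨by omega, by omega⟩
  have hSy : S ⊆ range (k + 1) := fun s hs => mem_range.2 (by have := hSk s hs; omega)
  have hSc : S.card ≤ k := by
    have h1 : S ⊆ Icc 1 k := fun s hs => mem_Icc.2 (hSk s hs)
    simpa using card_le_card h1
  -- the residues
  have hres : ∀ p : ℕ, ∃ b : ℕ, p.Prime → (∀ s ∈ S, ¬ p ∣ b + s) ∧ (p ≤ k → b = j) := by
    intro p
    by_cases hp : p.Prime
    · by_cases hpk : p ≤ k
      · refine ⟨j, fun _ => ⟨?_, fun _ => rfl⟩⟩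
        intro s hs hd
        rw [hS] at hs
        obtain ⟨e, he, rfl⟩ := mem_image.1 hs
        obtain ⟨h1, h2, h3⟩ := hmem e he
        have h4 : j + (e - j) = e := by omega
        rw [h4] at hd
        have h5 := Nat.dvd_gcd hd (Pool.Agent.Y879.PR.dvd_pri hp hpk)
        rw [h3] at h5
        exact hp.one_lt.ne' (Nat.dvd_one.1 h5)
      · obtain ⟨b, hb⟩ := Pool.Agent.Y879.PR.free_class p S (by omega)
        exact ⟨b, fun _ => ⟨hb, fun h => absurd h hpk⟩⟩
    · exact ⟨0, fun h => absurd h hp⟩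
  choose a ha using hres
  obtain ⟨δ, κ, hδ, hκ, hev⟩ := hsets S (k + 1) (by rw [hcard]; exact hjk) hSy a
    (fun p hp _ s hs => (ha p hp).1 s hs)
  obtain ⟨r, hr⟩ := few k δ hδ
  refine ⟨δ, κ, r, hδ, hκ, ?_, ?_⟩
  · obtain ⟨X₀, hX₀⟩ := eventually_atTop.1 (hev.and (hr.and (eventually_ge_atTop 1)))
    refine ⟨X₀, fun X hX => ?_⟩
    obtain ⟨g1, g2, g3⟩ := hX₀ X hX
    rw [hcard] at g1
    refine ⟨⟨_, ?_, g1⟩, ?_⟩
    · intro x hx
      obtain ⟨q1, q2, q3, q4, q5⟩ := mem_filter.1 hx
      rw [mem_Icc] at q1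
      have hX0 : (0 : ℝ) ≤ 3 * X := by linarith
      refine ⟨q2, (Nat.le_floor_iff hX0).1 q1.2, ?_, ?_, ?_⟩
      · -- the congruence
        have h1 : ((primorial k : ℕ) : ℤ) ∣ (j : ℤ) - x := by
          apply sq_dvd (Pool.Agent.Y879.PR.sq_pri k)
          intro p hp hpd
          have hpk := Pool.Agent.Y879.PR.le_of_dvd_pri hp hpd
          have h2 := q3 p hp (by omega)
          rw [(ha p hp).2 hpk] at h2
          exact (Nat.modEq_iff_dvd).1 h2
        exact (Nat.modEq_iff_dvd).2 h1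
      · intro e he p hp hpd
        refine q4 (e - j) ?_ p hp hpd
        rw [hS]
        exact mem_image_of_mem _ he
      · refine q5.trans ?_
        rw [primesIn_eq]
        have h1 : (S.filter (fun s => (x + s).Prime)).card ≤ ((Ioc x (x + k)).filter Nat.Prime).card := by
          apply Finset.card_le_card_of_injOn (fun s => x + s)
          · intro s hs
            obtain ⟨g1, g2⟩ := mem_filter.1 (Finset.mem_coe.1 hs)
            have g3 := hSk s g1
            have g4 : x + s ∈ (Ioc x (x + k)).filter Nat.Prime :=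
              mem_filter.2 ⟨mem_Ioc.2 ⟨by omega, by omega⟩, g2⟩
            exact Finset.mem_coe.2 g4
          · intro s _ s' _ hss
            have : x + s = x + s' := hss
            omega
        exact_mod_cast h1
    · intro x hx e he
      obtain ⟨q1, q2, -, q4, -⟩ := hx
      have hx0 : (0 : ℝ) < x := by linarith
      obtain ⟨h1, h2, -⟩ := hmem e he
      exact g2 x (e - j) (by omega) (by exact_mod_cast hx0) q2 (fun p hp hpd => q4 e he p hp hpd)
  · intro l ε hε
    obtain ⟨C, X₀, hN⟩ := narrow S l δ ε hδ hε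
    refine ⟨C, X₀, fun X hX A hA hAc => ?_⟩
    refine hN X hX A (fun m hm => ⟨(hA m hm).1, (hA m hm).2.1⟩) ?_ (by rw [hcard]; exact hAc)
    intro m hm s hs p hp hpd
    rw [hS] at hs
    obtain ⟨e, he, rfl⟩ := mem_image.1 hs
    exact (hA m hm).2.2.2.1 e he p hp hpd

end Pool.Agent.Results.MP_cbf366_nt.SurvivorsWithPrimes
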